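import Pool.Agent.H8.AF.Fin

/-!
# MP_821da1_nt, AllCurves: explicit constants
-/

namespace Pool.Agent.H8.AF

open Pool.Agent.H34.AC Pool.Agent.H52.AC Pool.Agent.H97.XC

theorem wF_le {n : ℕ} (hn : 3 ≤ n) : wF n ≤ 14000 * n ^ 8 := by
  have h1 : 2 * n + 3 ≤ 3 * n := by omega
  have h2 : 3 * (n * (n + 1)) ≤ 4 * n ^ 2 := by nlinarith
  have h3 : (3 * (n * (n + 1))) ^ 3 ≤ (4 * n ^ 2) ^ 3 := Nat.pow_le_pow_left h2 3
  have h4 : 27 * (n * (n + 1)) ^ 3 ≤ 64 * n ^ 6 := by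
    calc 27 * (n * (n + 1)) ^ 3 = (3 * (n * (n + 1))) ^ 3 := by ring
      _ ≤ _ := h3
      _ = 64 * n ^ 6 := by ring
  have h5 : wF n ≤ (3 * n) * (640 * (n * (n + 1)) ^ 3) * (3 * n) := by
    unfold wF
    gcongr
  have h6 : 27 * ((3 * n) * (640 * (n * (n + 1)) ^ 3) * (3 * n)) ≤ 27 * (14000 * n ^ 8) := by
    calc 27 * ((3 * n) * (640 * (n * (n + 1)) ^ 3) * (3 * n)) =
          5760 * n ^ 2 * (27 * (n * (n + 1)) ^ 3) := by ring
      _ ≤ 5760 * n ^ 2 * (64 * n ^ 6) := Nat.mul_le_mul_left _ h4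
      _ = 368640 * n ^ 8 := by ring
      _ ≤ 27 * (14000 * n ^ 8) := by
          rw [← mul_assoc]
          exact Nat.mul_le_mul_right _ (by norm_num)
  omega

theorem quad_le (N : ℕ) (hN : 12 ≤ N) : 14 * N ^ 2 ≤ 2 ^ N := by
  induction N, hN using Nat.le_induction with
  | base => norm_num
  | succ N hN ih =>
    calc 14 * (N + 1) ^ 2 ≤ 2 * (14 * N ^ 2) := by nlinarith
      _ ≤ 2 * 2 ^ N := by omega
      _ = 2 ^ (N + 1) := by ring

theorem cF_le {n : ℕ} (hn : 3 ≤ n) : cF n ≤ 2 ^ (2 * n ^ 2).factorial := by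
  obtain ⟨N, hN⟩ : ∃ N, N = NR n := ⟨_, rfl⟩
  have hN' : N = n * (n + 1) := hN
  have hN12 : 12 ≤ N := by rw [hN']; nlinarith
  have hnN : n + 3 ≤ N := by rw [hN']; nlinarith
  obtain ⟨f, hf⟩ : ∃ f, f = N.factorial := ⟨_, rfl⟩
  have hf1 : 479001600 ≤ f := by
    rw [hf]
    calc 479001600 = (12).factorial := by decide
      _ ≤ _ := Nat.factorial_le hN12
  obtain ⟨Q, hQ⟩ : ∃ Q, Q = f * N ^ 4 := ⟨_, rfl⟩
  have hN2 : 12 * N ≤ N ^ 2 := by nlinarith
  have hN3 : 12 * N ^ 2 ≤ N ^ 3 := by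
    calc 12 * N ^ 2 ≤ N * N ^ 2 := Nat.mul_le_mul_right _ hN12
      _ = N ^ 3 := by ring
  have hN4 : 12 * N ^ 3 ≤ N ^ 4 := by
    calc 12 * N ^ 3 ≤ N * N ^ 3 := Nat.mul_le_mul_right _ hN12
      _ = N ^ 4 := by ring
  have hfN4 : f ≤ Q := by rw [hQ]; exact Nat.le_mul_of_pos_right _ (by positivity)
  have hcQ : ∀ c : ℕ, c ≤ 479001600 → ∀ x, x ≤ N ^ 4 → c * x ≤ Q := by
    intro c hc x hx
    rw [hQ]
    exact Nat.mul_le_mul (hc.trans hf1) hx
  obtain ⟨B, hB⟩ : ∃ B, B = 2 ^ Q := ⟨_, rfl⟩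
  have hQB : ∀ x, x ≤ Q → x ≤ B := fun x hx => hx.trans (by rw [hB]; exact Nat.lt_two_pow_self.le)
  have hQ1 : 1 ≤ Q := by omega
  have hB2 : 2 ≤ B := by rw [hB]; exact Nat.le_self_pow (by omega) 2
  have hpow : ∀ e, e ≤ Q → 2 ^ e ≤ B := fun e he => by
    rw [hB]; exact Nat.pow_le_pow_right (by norm_num) he
  -- the small quantities
  have hsz : sz N N = f * (2 * N * N + N) := by rw [hf]; rfl
  have hs1 : sz N N + 1 ≤ f * N ^ 3 := by
    rw [hsz]
    calc f * (2 * N * N + N) + 1 ≤ f * (2 * N * N + N) + f := by omega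
      _ = f * (2 * N * N + N + 1) := by ring
      _ ≤ f * N ^ 3 := Nat.mul_le_mul_left _ (by nlinarith)
  have hNs : N * (sz N N + 1) ≤ Q := by
    rw [hQ]
    calc N * (sz N N + 1) ≤ N * (f * N ^ 3) := Nat.mul_le_mul_left _ hs1
      _ = f * N ^ 4 := by ring
  have hsB : sz N N + 1 ≤ B := by
    refine hQB _ (le_trans ?_ hNs)
    exact Nat.le_mul_of_pos_left _ (by omega)
  have hc1 : c1R n ≤ B ^ 3 := by
    have h1 : 4 * N * (N + 1) ≤ B := by
      apply hQB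
      calc 4 * N * (N + 1) ≤ 8 * N ^ 2 := by nlinarith
        _ ≤ Q := hcQ 8 (by norm_num) _ (by omega)
    have h2 : f * N + 1 ≤ B := by
      apply hQB
      rw [hQ]
      calc f * N + 1 ≤ f * N + f := by omega
        _ = f * (N + 1) := by ring
        _ ≤ f * N ^ 4 := Nat.mul_le_mul_left _ (by omega)
    calc c1R n = (4 * N * (N + 1)) * (f * N + 1) * (sz N N + 1) := by
          rw [c1R, ← hN, hf]
      _ ≤ B * B * B := by gcongr
      _ = B ^ 3 := by ring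
  have he : eR n ≤ B ^ 4 := by
    have h1 : 600 * N ^ 3 ≤ B := hQB _ (hcQ 600 (by norm_num) _ (by omega))
    have h2 : (14 * N ^ 2) ^ (sz N N + 1) ≤ B := by
      calc (14 * N ^ 2) ^ (sz N N + 1) ≤ (2 ^ N) ^ (sz N N + 1) :=
            Nat.pow_le_pow_left (quad_le N hN12) _
        _ = 2 ^ (N * (sz N N + 1)) := (pow_mul 2 N _).symm
        _ ≤ B := hpow _ hNs
    calc eR n = (600 * N ^ 3) * (sz N N + 1) ^ 2 * (14 * N ^ 2) ^ (sz N N + 1) := by
          rw [eR, ← hN]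
      _ ≤ B * B ^ 2 * B := by gcongr
      _ = B ^ 4 := by ring
  have h2NN : N * (2 * N) ≤ Q := by
    calc N * (2 * N) = 2 * N ^ 2 := by ring
      _ ≤ Q := hcQ 2 (by norm_num) _ (by omega)
  have hc2 : c2R n ≤ B ^ 2 := by
    have h1 : (2 * N).factorial ≤ B := by
      calc (2 * N).factorial ≤ (2 * N) ^ (2 * N) := Nat.factorial_le_pow _
        _ ≤ (2 ^ N) ^ (2 * N) := Nat.pow_le_pow_left (by nlinarith [quad_le N hN12]) _
        _ = 2 ^ (N * (2 * N)) := (pow_mul 2 N (2 * N)).symm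
        _ ≤ B := hpow _ h2NN
    have h2 : ((N + 1) * N) ^ (2 * N) ≤ B := by
      calc ((N + 1) * N) ^ (2 * N) ≤ (2 ^ N) ^ (2 * N) :=
            Nat.pow_le_pow_left (by nlinarith [quad_le N hN12]) _
        _ = 2 ^ (N * (2 * N)) := (pow_mul 2 N (2 * N)).symm
        _ ≤ B := hpow _ h2NN
    calc c2R n = (2 * N).factorial * ((N + 1) * N) ^ (2 * N) := by rw [c2R, ← hN]
      _ ≤ B * B := by gcongr
      _ = B ^ 2 := by ring
  have hnN1 : n + N + 1 ≤ B := by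
    apply hQB
    calc n + N + 1 ≤ 2 * N := by omega
      _ ≤ Q := hcQ 2 (by norm_num) _ (by omega)
  have hnN3 : n + N + 3 ≤ B := by
    apply hQB
    calc n + N + 3 ≤ 2 * N := by omega
      _ ≤ Q := hcQ 2 (by norm_num) _ (by omega)
  have h2N : 2 * N ≤ B := hQB _ (hcQ 2 (by norm_num) _ (by omega))
  have hB1 : 1 ≤ B := by omega
  have hcR : cR n ≤ B ^ 10 := by
    have h1 : c1R n + (n + N + 1) ≤ B ^ 4 := by
      calc c1R n + (n + N + 1) ≤ B ^ 3 + B ^ 3 := by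
            have : B ≤ B ^ 3 := Nat.le_self_pow (by omega) B
            omega
        _ = 2 * B ^ 3 := by ring
        _ ≤ B * B ^ 3 := Nat.mul_le_mul_right _ hB2
        _ = B ^ 4 := by ring
    have h2 : (n + N) * (2 * N) ≤ B ^ 2 := by
      calc (n + N) * (2 * N) ≤ B * B := Nat.mul_le_mul (by omega) h2N
        _ = B ^ 2 := by ring
    have h3 : B ^ 2 ≤ B ^ 8 := Nat.pow_le_pow_right hB1 (by norm_num)
    have h4 : B ≤ B ^ 8 := Nat.le_self_pow (by omega) B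
    have h5 : (c1R n + (n + N + 1)) * eR n ≤ B ^ 8 := by
      calc (c1R n + (n + N + 1)) * eR n ≤ B ^ 4 * B ^ 4 := Nat.mul_le_mul h1 he
        _ = B ^ 8 := by ring
    calc cR n = (c1R n + (n + N + 1)) * eR n + (c2R n + (n + N) * (2 * N)) + (n + N) + 3 := by
          rw [cR, ← hN]
      _ ≤ 4 * B ^ 8 := by omega
      _ = 2 * 2 * B ^ 8 := by ring
      _ ≤ B * B * B ^ 8 := by gcongr
      _ = B ^ 10 := by ring
  have hcA : cA N ≤ B ^ 4 := by
    have h1 : 20 * N ^ 2 ≤ B := hQB _ (hcQ 20 (by norm_num) _ (by omega))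
    have h2 : 10 ^ 6 ≤ B := by
      have := hQB _ hfN4
      omega
    have h3 : N ^ 5 ≤ B := by
      apply hQB
      rw [hQ]
      calc N ^ 5 = N * N ^ 4 := by ring
        _ ≤ f * N ^ 4 := Nat.mul_le_mul_right _ (by rw [hf]; exact Nat.self_le_factorial N)
    have h4 : f ≤ B := hQB _ hfN4
    calc cA N = 20 * N ^ 2 * (10 ^ 6 * N ^ 5 * f) := by rw [cA, hf]
      _ ≤ B * (B * B * B) := by gcongr
      _ = B ^ 4 := by ring
  have hn3 : 2 * n + 3 ≤ B := by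
    apply hQB
    calc 2 * n + 3 ≤ 2 * N := by omega
      _ ≤ Q := hcQ 2 (by norm_num) _ (by omega)
  have hfin : cF n ≤ B ^ 15 := by
    calc cF n = cR n * cA N * (2 * n + 3) := by rw [cF, ← hN']
      _ ≤ B ^ 10 * B ^ 4 * B := by gcongr
      _ = B ^ 15 := by ring
  have hfac : 15 * Q ≤ (2 * n ^ 2).factorial := by
    have h1 : N + 6 ≤ 2 * n ^ 2 := by rw [hN']; nlinarith
    calc 15 * Q = 15 * (f * N ^ 4) := by rw [hQ]
      _ ≤ N ^ 2 * (f * N ^ 4) := Nat.mul_le_mul_right _ (by omega)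
      _ = f * N ^ 6 := by ring
      _ ≤ f * (N + 1) ^ 6 := by gcongr; omega
      _ ≤ (N + 6).factorial := by rw [hf]; exact Nat.factorial_mul_pow_le_factorial
      _ ≤ _ := Nat.factorial_le h1
  calc cF n ≤ B ^ 15 := hfin
    _ = 2 ^ (15 * Q) := by rw [hB, ← pow_mul, mul_comm]
    _ ≤ _ := Nat.pow_le_pow_right (by norm_num) hfac

end Pool.Agent.H8.AF
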