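import Pool.Agent.H8.AF.Red

/-!
# MP_821da1_nt, AllCurves: the final assembly
-/

namespace Pool.Agent.H8.AF

open Finset Polynomial Pool.Agent.H72.ES Pool.Agent.H87.SA2 Pool.Agent.H8.AW Pool.Agent.H8.AS
  Pool.Agent.H34.AC Pool.Agent.H52.AC

/-- the exponent of the height below which there is no restriction -/
def cF (n : ℕ) : ℕ := cR n * cA (n * (n + 1)) * (2 * n + 3)

/-- the exponent of the windows -/
def wF (n : ℕ) : ℕ := (2 * n + 3) * (640 * (n * (n + 1)) ^ 3) * (2 * n + 3)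

theorem cA_ge {N : ℕ} (hN : 1 ≤ N) : 2 * N + 1 ≤ cA N ∧ 4 * N.factorial ≤ cA N := by
  have h1 : 1 ≤ N.factorial := Nat.factorial_pos N
  have h5 : 1 ≤ N ^ 5 := Nat.one_le_pow _ _ hN
  have h2 : N ≤ N ^ 2 := Nat.le_self_pow (by omega) N
  have hA : 1 ≤ 10 ^ 6 * N ^ 5 * N.factorial :=
    Nat.mul_pos (Nat.mul_pos (by norm_num) h5) h1
  unfold cA
  constructor
  · have h3 : 1 ≤ N ^ 2 := Nat.one_le_pow _ _ hN
    calc 2 * N + 1 ≤ 20 * N ^ 2 * 1 := by omega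
      _ ≤ _ := Nat.mul_le_mul_left _ hA
  · calc 4 * N.factorial ≤ 20 * 1 * (10 ^ 6 * 1 * N.factorial) := by omega
      _ ≤ _ := by
        have : 1 ≤ N ^ 2 := Nat.one_le_pow _ _ hN
        gcongr

theorem all_curves
    (k : Type) [Field k] [NumberField k] (hk : 3 ≤ Module.finrank ℚ k) (n : ℕ) (hn : 3 ≤ n) :
    ∃ S : Finset ℕ, S.card ≤ Set.ncard {K : Subfield ℝ | Nonempty (k ≃+* K)} ∧
      ∀ (F : MvPolynomial (Fin 2) ℤ), Irreducible (MvPolynomial.map (Int.castRingHom ℚ) F) →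
        F.totalDegree ≤ n → INFR k F → ∀ H : ℕ, 2 ≤ H → (∀ m, |F.coeff m| ≤ (H : ℤ)) →
        ∀ x y : ℤ, vl F x y = 0 → max x.natAbs y.natAbs ≤ H ^ cF n ∨
          ∃ M ∈ S, M ≤ max x.natAbs y.natAbs ∧ max x.natAbs y.natAbs ≤ M ^ wF n := by
  obtain ⟨S, hS, hw⟩ := windowsS k (n := n * (n + 1)) (c := cA (n * (n + 1)))
    (a := 2 * n + 3) (w := wA (n * (n + 1)))
    (fun τ x1 y1 x2 y2 h1 h2 => repelS hk h1 h2)
  refine ⟨S, hS, ?_⟩
  intro F hirr hdeg hinf H hH2 hH x y h0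
  by_contra hcon
  push Not at hcon
  obtain ⟨hbig, hno⟩ := hcon
  obtain ⟨d, b, F', a, ⟨Q⟩, hb, ha0, -, hev⟩ := redS k (by omega) n hn F hirr hdeg H hH2 hH hinf x y h0
  obtain ⟨m, hm⟩ : ∃ m, m = max x.natAbs y.natAbs := ⟨_, rfl⟩
  rw [← hm] at hbig hno
  have hN1 : 1 ≤ n * (n + 1) := Nat.mul_pos (by omega) (by omega)
  obtain ⟨hcA1, hcA2⟩ := cA_ge hN1
  have hb2 : 2 ≤ b := Q.b2
  have hd4 := Q.d4
  have hHm : b ^ (cA (n * (n + 1)) * (2 * n + 3)) < m := by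
    calc b ^ (cA (n * (n + 1)) * (2 * n + 3)) ≤ (H ^ cR n) ^ (cA (n * (n + 1)) * (2 * n + 3)) :=
          Nat.pow_le_pow_left hb _
      _ = H ^ cF n := by rw [← pow_mul, cF, mul_assoc]
      _ < m := hbig
  have hxm : |x| ≤ (m : ℤ) := by
    rw [Int.abs_eq_natAbs, hm]
    exact_mod_cast le_max_left _ _
  have hym : |y| ≤ (m : ℤ) := by
    rw [Int.abs_eq_natAbs, hm]
    exact_mod_cast le_max_right _ _
  -- the coordinate `u` is above the threshold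
  have hkey : ∀ V : ℤ, (b : ℤ) ^ (2 * (n * (n + 1)) + 1) ≤ V → |y + x ^ (n + 1)| ≤ V →
      (m : ℤ) ≤ V ^ (2 * n + 3) := by
    intro V hV hu
    obtain ⟨h1, h2⟩ := size_up (by omega) Q.dn hb2 Q.lead Q.le ha0 hV hu (hev x y h0)
    rw [hm]
    rw [Int.abs_eq_natAbs] at h1 h2
    push_cast
    rw [Int.abs_eq_natAbs, Int.abs_eq_natAbs]
    exact max_le h1 h2
  have hbc : (b : ℤ) ^ (2 * (n * (n + 1)) + 1) ≤ (b : ℤ) ^ cA (n * (n + 1)) :=
    pow_le_pow_right₀ (by exact_mod_cast (by omega : 1 ≤ b)) hcA1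
  have hu : (b : ℤ) ^ cA (n * (n + 1)) ≤ |y + x ^ (n + 1)| := by
    by_contra hc
    push Not at hc
    have h1 := hkey _ hbc hc.le
    rw [← pow_mul] at h1
    have h2 : m ≤ b ^ (cA (n * (n + 1)) * (2 * n + 3)) := by exact_mod_cast h1
    omega
  have hup : (m : ℤ) ≤ |y + x ^ (n + 1)| ^ (2 * n + 3) := hkey _ (hbc.trans hu) le_rfl
  have hm2 : (2 : ℤ) ≤ m := by
    have : 1 ≤ b ^ (cA (n * (n + 1)) * (2 * n + 3)) := Nat.one_le_pow _ _ (by omega)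
    exact_mod_cast (by omega : 2 ≤ m)
  have hlow := size_low (n := n) hm2 hxm hym
  have huR : (b : ℝ) ^ cA (n * (n + 1)) ≤ |((y + x ^ (n + 1) : ℤ) : ℝ)| := by
    have : ((b : ℤ) ^ cA (n * (n + 1)) : ℤ) ≤ |y + x ^ (n + 1)| := hu
    exact_mod_cast this
  obtain ⟨τ, hexc⟩ := Q.exc hcA2 (hev x y h0) huR
  obtain ⟨M, hMS, h1, h2⟩ := hw τ _ _ m hexc (by exact_mod_cast hlow) (by exact_mod_cast hup)
  have := hno M hMS h1
  have hww : (2 * n + 3) * wA (n * (n + 1)) * (2 * n + 3) = wF n := rfl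
  rw [hww] at h2
  omega

end Pool.Agent.H8.AF
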