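import Pool.Agent.H34.AC.RedS
import Pool.Agent.H8.AS.Two
import Pool.Agent.H8.AS.Pt

/-!
# MP_821da1_nt, AllCurves: from the reduction to the size of an integer point
-/

namespace Pool.Agent.H8.AF

open Finset Polynomial Pool.Agent.H72.ES Pool.Agent.H87.SA2 Pool.Agent.H8.AW Pool.Agent.H8.AS
  Pool.Agent.H34.AC

/-- the monic coordinate is at most linear in the other one -/
theorem ev_root {d b : ℕ} {F : ℕ → ℕ → ℤ} (hd : 1 ≤ d) (hb : 1 ≤ b) (hlead : F 0 d = 1)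
    (hle : ∀ i j, |F i j| ≤ (b : ℤ)) {u z U : ℤ} (hU : 1 ≤ U) (hu : |u| ≤ U)
    (h : ev d F u z = 0) : |z| ≤ b * (d + 1) ^ 2 * U := by
  by_contra hcon
  push Not at hcon
  have hb1 : (1 : ℤ) ≤ b := by exact_mod_cast hb
  have hd1 : (1 : ℤ) ≤ ((d : ℤ) + 1) ^ 2 := by nlinarith [Int.natCast_nonneg d]
  have hbd : (1 : ℤ) ≤ b * ((d : ℤ) + 1) ^ 2 := by nlinarith
  have hUz : U ≤ |z| := by nlinarith
  have huz : |u| ≤ |z| := hu.trans hUz
  have hz1 : 1 ≤ |z| := hU.trans hUz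
  obtain ⟨G, hG⟩ : ∃ G : ℕ → ℕ → ℤ, G = fun i j => if i = 0 ∧ j = d then 0 else F i j * u ^ i * z ^ j :=
    ⟨_, rfl⟩
  have hterm : ∀ i j, i + j ≤ d → |G i j| ≤ b * U * |z| ^ (d - 1) := by
    intro i j hij
    rw [hG]
    dsimp only
    split_ifs with hc
    · rw [abs_zero]; positivity
    · rw [abs_mul, abs_mul, abs_pow, abs_pow, mul_assoc, mul_assoc]
      refine mul_le_mul (hle i j) ?_ (by positivity) (by positivity)
      rcases Nat.eq_zero_or_pos i with rfl | hi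
      · have hj : j ≤ d - 1 := by omega
        rw [pow_zero, one_mul]
        calc |z| ^ j ≤ |z| ^ (d - 1) := pow_le_pow_right₀ hz1 hj
          _ = 1 * |z| ^ (d - 1) := (one_mul _).symm
          _ ≤ U * |z| ^ (d - 1) := by gcongr
      · obtain ⟨i, rfl⟩ : ∃ i', i = i' + 1 := ⟨i - 1, by omega⟩
        have hij' : i + j ≤ d - 1 := by omega
        calc |u| ^ (i + 1) * |z| ^ j = |u| * (|u| ^ i * |z| ^ j) := by ring
          _ ≤ U * (|z| ^ i * |z| ^ j) := by gcongr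
          _ = U * |z| ^ (i + j) := by rw [pow_add]
          _ ≤ U * |z| ^ (d - 1) := by gcongr
  have hsplit : ev d F u z = z ^ d + ∑ i ∈ range (d + 1), ∑ j ∈ range (d + 1 - i), G i j := by
    have h1 : ∀ i ∈ range (d + 1), ∑ j ∈ range (d + 1 - i), F i j * u ^ i * z ^ j =
        (∑ j ∈ range (d + 1 - i), G i j) + if i = 0 then z ^ d else 0 := by
      intro i _
      have h2 : ∀ j ∈ range (d + 1 - i), F i j * u ^ i * z ^ j = G i j +
          if j = d then (if i = 0 then z ^ d else 0) else 0 := by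
        intro j _
        rw [hG]
        dsimp only
        by_cases hi : i = 0
        · by_cases hj : j = d
          · subst hi; subst hj
            simp [hlead]
          · simp [hi, hj]
        · simp [hi]
      rw [sum_congr rfl h2, sum_add_distrib, sum_ite_eq']
      by_cases hi : i = 0
      · subst hi
        simp
      · simp [hi]
    unfold ev
    rw [sum_congr rfl h1, sum_add_distrib, sum_ite_eq', if_pos (by simp), add_comm]
  have hsum : |∑ i ∈ range (d + 1), ∑ j ∈ range (d + 1 - i), G i j| ≤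
      ((d : ℤ) + 1) ^ 2 * (b * U * |z| ^ (d - 1)) := by
    have h1 : ∀ i ∈ range (d + 1), |∑ j ∈ range (d + 1 - i), G i j| ≤
        ((d : ℤ) + 1) * (b * U * |z| ^ (d - 1)) := by
      intro i hi
      refine (abs_sum_le_sum_abs _ _).trans ?_
      refine (sum_le_card_nsmul _ _ (b * U * |z| ^ (d - 1)) ?_).trans ?_
      · intro j hj
        refine hterm i j ?_
        have := mem_range.mp hj
        omega
      · rw [card_range, nsmul_eq_mul]
        have : ((d + 1 - i : ℕ) : ℤ) ≤ (d : ℤ) + 1 := by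
          have : d + 1 - i ≤ d + 1 := Nat.sub_le _ _
          exact_mod_cast this
        gcongr
    refine (abs_sum_le_sum_abs _ _).trans ?_
    refine (sum_le_card_nsmul _ _ _ h1).trans ?_
    rw [card_range, nsmul_eq_mul]
    push_cast
    exact le_of_eq (by ring)
  have hz : |z| ^ d ≤ ((d : ℤ) + 1) ^ 2 * (b * U * |z| ^ (d - 1)) := by
    have h1 : z ^ d = -∑ i ∈ range (d + 1), ∑ j ∈ range (d + 1 - i), G i j := by
      linarith [hsplit.symm.trans h]
    rw [← abs_pow, h1, abs_neg]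
    exact hsum
  have hdd : |z| ^ d = |z| ^ (d - 1) * |z| := by
    rw [← pow_succ]
    congr 1
    omega
  rw [hdd] at hz
  have hp : 0 < |z| ^ (d - 1) := by positivity
  have h2 : |z| ^ (d - 1) * |z| ≤ |z| ^ (d - 1) * (b * ((d : ℤ) + 1) ^ 2 * U) := by
    calc |z| ^ (d - 1) * |z| ≤ ((d : ℤ) + 1) ^ 2 * (b * U * |z| ^ (d - 1)) := hz
      _ = _ := by ring
  have h3 := le_of_mul_le_mul_left h2 hp
  linarith

/-- the size of a point in terms of `u = y + x^(n+1)` -/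
theorem size_up {d b n N : ℕ} {F : ℕ → ℕ → ℤ} (hd : 1 ≤ d) (hdN : d ≤ N) (hb : 2 ≤ b)
    (hlead : F 0 d = 1) (hle : ∀ i j, |F i j| ≤ (b : ℤ)) {a x y V : ℤ} (ha : a ≠ 0)
    (hV : (b : ℤ) ^ (2 * N + 1) ≤ V) (hu : |y + x ^ (n + 1)| ≤ V)
    (h : ev d F (y + x ^ (n + 1)) (a * x) = 0) :
    |x| ≤ V ^ (2 * n + 3) ∧ |y| ≤ V ^ (2 * n + 3) := by
  have hb2 : (2 : ℤ) ≤ b := by exact_mod_cast hb
  have hbN : (b : ℤ) ≤ (b : ℤ) ^ (2 * N + 1) := le_self_pow₀ (by omega) (by omega)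
  have hV2 : 2 ≤ V := by omega
  have h1 := ev_root hd (by omega) hlead hle (by omega : 1 ≤ V) hu h
  have hd2 : ((d : ℤ) + 1) ^ 2 ≤ (b : ℤ) ^ (2 * N) := by
    have h2 : d + 1 ≤ 2 ^ N := by
      have := Nat.lt_two_pow_self (n := N)
      omega
    have h3 : (d : ℤ) + 1 ≤ 2 ^ N := by exact_mod_cast h2
    calc ((d : ℤ) + 1) ^ 2 ≤ (2 ^ N) ^ 2 := by gcongr
      _ = 2 ^ (2 * N) := by rw [← pow_mul, mul_comm]
      _ ≤ (b : ℤ) ^ (2 * N) := by gcongr
  have hax : |x| ≤ |a * x| := by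
    rw [abs_mul]
    have : 1 ≤ |a| := Int.one_le_abs ha
    nlinarith [abs_nonneg x]
  have hx : |x| ≤ V ^ 2 := by
    calc |x| ≤ |a * x| := hax
      _ ≤ b * ((d : ℤ) + 1) ^ 2 * V := h1
      _ ≤ b * (b : ℤ) ^ (2 * N) * V := by gcongr
      _ = (b : ℤ) ^ (2 * N + 1) * V := by ring
      _ ≤ V * V := by gcongr
      _ = V ^ 2 := by ring
  have hxn : |x| ^ (n + 1) ≤ V ^ (2 * n + 2) := by
    calc |x| ^ (n + 1) ≤ (V ^ 2) ^ (n + 1) := pow_le_pow_left₀ (abs_nonneg _) hx _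
      _ = V ^ (2 * n + 2) := by rw [← pow_mul]; congr 1
  refine ⟨hx.trans (pow_le_pow_right₀ (by omega) (by omega)), ?_⟩
  have h4 : |y| ≤ |y + x ^ (n + 1)| + |x| ^ (n + 1) := by
    have h5 : y = (y + x ^ (n + 1)) - x ^ (n + 1) := by ring
    calc |y| = |(y + x ^ (n + 1)) - x ^ (n + 1)| := by rw [← h5]
      _ ≤ |y + x ^ (n + 1)| + |x ^ (n + 1)| := abs_sub _ _
      _ = _ := by rw [abs_pow]
  calc |y| ≤ V + V ^ (2 * n + 2) := h4.trans (add_le_add hu hxn)
    _ ≤ V ^ (2 * n + 2) + V ^ (2 * n + 2) := by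
        have : V ≤ V ^ (2 * n + 2) := le_self_pow₀ (by omega) (by omega)
        omega
    _ = 2 * V ^ (2 * n + 2) := by ring
    _ ≤ V * V ^ (2 * n + 2) := by gcongr
    _ = V ^ (2 * n + 3) := by ring

theorem size_low {n : ℕ} {x y m : ℤ} (hm : 2 ≤ m) (hx : |x| ≤ m) (hy : |y| ≤ m) :
    |y + x ^ (n + 1)| ≤ m ^ (2 * n + 3) := by
  calc |y + x ^ (n + 1)| ≤ |y| + |x| ^ (n + 1) := (abs_add_le _ _).trans (by rw [abs_pow])
    _ ≤ m + m ^ (n + 1) := by gcongr
    _ ≤ m ^ (n + 1) + m ^ (n + 1) := by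
        have : m ≤ m ^ (n + 1) := le_self_pow₀ (by omega) (by omega)
        omega
    _ = 2 * m ^ (n + 1) := by ring
    _ ≤ m * m ^ (n + 1) := by gcongr
    _ = m ^ (n + 2) := by ring
    _ ≤ m ^ (2 * n + 3) := pow_le_pow_right₀ (by omega) (by omega)

end Pool.Agent.H8.AF
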